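import Pool.Agent.Y142.ZI.Stm

/-!
# Task IRR of project Y142-ZI: irreducibility over `ℚ_ℓ` from the Frobenius element
-/

set_option autoImplicit false

open Polynomial NumberField
open Pool.Agent.Y142.ZO Pool.Agent.Y142.ZI

namespace Pool.Agent.Y971.ZI

/-- clearing denominators -/
lemma clear (p : ℚ[X]) : ∃ c : ℤ, c ≠ 0 ∧ ∃ q : ℤ[X],
    q.map (Int.castRingHom ℚ) = C (c : ℚ) * p := by
  obtain ⟨b, hb0, hb⟩ := IsLocalization.integerNormalization_spec (nonZeroDivisors ℤ) p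
  refine ⟨b, nonZeroDivisors.ne_zero hb0, _, hb.trans ?_⟩
  rw [map_intCast, zsmul_eq_mul]

lemma exists_scale (Q : ℚ[X]) (hQ : Q.Monic) : ∃ D : ℕ, 0 < D ∧ ∃ P : ℤ[X], P.Monic ∧
    P.map (Int.castRingHom ℚ) = Q.scaleRoots (D : ℚ) := by
  set D : ℕ := ∏ i ∈ Finset.range Q.natDegree, (Q.coeff i).den with hD
  have hlift : Q.scaleRoots (D : ℚ) ∈ Polynomial.lifts (Int.castRingHom ℚ) := by
    rw [Polynomial.lifts_iff_coeff_lifts]
    intro i
    rw [coeff_scaleRoots]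
    rcases lt_trichotomy i Q.natDegree with h | h | h
    · have hd : (Q.coeff i).den ∣ D := Finset.dvd_prod_of_mem _ (Finset.mem_range.mpr h)
      obtain ⟨c, hc⟩ := hd
      refine ⟨(Q.coeff i).num * c * (D : ℤ) ^ (Q.natDegree - i - 1), ?_⟩
      have h1 : Q.natDegree - i = (Q.natDegree - i - 1) + 1 := by omega
      rw [h1, pow_succ]
      have h2 : Q.coeff i * (Q.coeff i).den = (Q.coeff i).num := Rat.mul_den_eq_num _
      have h3 : (D : ℚ) = (Q.coeff i).den * c := by exact_mod_cast hc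
      rw [Nat.add_sub_cancel]
      simp only [eq_intCast, Int.cast_mul, Int.cast_pow, Int.cast_natCast]
      rw [← h2]
      nth_rewrite 3 [h3]
      ring
    · refine ⟨1, ?_⟩
      rw [h, Nat.sub_self, pow_zero, mul_one, hQ.coeff_natDegree]
      simp
    · refine ⟨0, ?_⟩
      rw [coeff_eq_zero_of_natDegree_lt h]
      simp
  obtain ⟨P, hP, _, hPm⟩ := Polynomial.lifts_and_natDegree_eq_and_monic hlift
    ((monic_scaleRoots_iff _).mpr hQ)
  exact ⟨D, Finset.prod_pos (fun i _ => (Q.coeff i).den_pos), P, hPm, hP⟩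

lemma derivative_scale (p : ℚ[X]) (s : ℚ) :
    derivative (p.scaleRoots s) = (derivative p).scaleRoots s := by
  have hd : (derivative p).natDegree = p.natDegree - 1 := natDegree_derivative p
  ext i
  rw [coeff_derivative, coeff_scaleRoots, coeff_scaleRoots, coeff_derivative, hd, Nat.sub_sub,
    Nat.add_comm 1 i]
  ring

lemma sep_bound (P : ℤ[X]) (h : (P.map (Int.castRingHom ℚ)).Separable) :
    ∃ N : ℤ, N ≠ 0 ∧ ∃ a b : ℤ[X], a * P + b * derivative P = C N := by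
  obtain ⟨a', b', hab⟩ := h
  obtain ⟨c₁, hc₁, a, ha⟩ := clear a'
  obtain ⟨c₂, hc₂, b, hb⟩ := clear b'
  refine ⟨c₁ * c₂, mul_ne_zero hc₁ hc₂, C c₂ * a, C c₁ * b, ?_⟩
  apply Polynomial.map_injective (Int.castRingHom ℚ) Int.cast_injective
  rw [Polynomial.map_add, Polynomial.map_mul, Polynomial.map_mul, Polynomial.map_mul,
    Polynomial.map_mul, ha, hb, ← Polynomial.derivative_map, Polynomial.map_C, Polynomial.map_C,
    Polynomial.map_C, eq_intCast, eq_intCast, eq_intCast, Int.cast_mul, C_mul]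
  linear_combination (C (c₁ : ℚ) * C (c₂ : ℚ)) * hab

/-- **Task IRR.** -/
theorem t : S_IRR := by
  intro Q hQm hQs hn
  obtain ⟨D, hD0, P, hPm, hP⟩ := exists_scale Q hQm
  have hDQ : (D : ℚ) ≠ 0 := by exact_mod_cast hD0.ne'
  have hPsep : (P.map (Int.castRingHom ℚ)).Separable := by
    rw [hP, separable_def, derivative_scale Q _]
    exact isCoprime_scaleRoots _ _ _ (isUnit_iff_ne_zero.mpr hDQ) hQs
  obtain ⟨N, hN0, a, b, hab⟩ := sep_bound P hPsep
  refine ⟨N.natAbs, ?_⟩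
  intro ℓ hℓ hfact σ hfrob htr
  obtain ⟨𝔔, hmax, hmem, hfr⟩ := hfrob
  let _ : Field ((𝓞 QQ) ⧸ 𝔔) := Ideal.Quotient.field 𝔔
  have hchar : CharP ((𝓞 QQ) ⧸ 𝔔) ℓ := by
    rw [CharP.charP_iff_prime_eq_zero hfact.out]
    have h1 : Ideal.Quotient.mk 𝔔 (ℓ : 𝓞 QQ) = 0 := Ideal.Quotient.eq_zero_iff_mem.mpr hmem
    rwa [map_natCast] at h1
  set mk : 𝓞 QQ →+* (𝓞 QQ) ⧸ 𝔔 := Ideal.Quotient.mk 𝔔 with hmk
  set φ : ZMod ℓ →+* (𝓞 QQ) ⧸ 𝔔 := ZMod.castHom dvd_rfl _ with hφ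
  -- the Frobenius element
  have hfrob : ∀ w : 𝓞 QQ, mk (σ • w) = (mk w) ^ ℓ := by
    intro w
    rw [← map_pow]
    exact Ideal.Quotient.eq.mpr (hfr w)
  have hcoe : ∀ (τ : GK ℚ) (w : 𝓞 QQ), ((τ • w : 𝓞 QQ) : QQ) = τ (w : QQ) := fun τ w => rfl
  -- the polynomial over the ring of integers
  have hPO : (P.map (algebraMap ℤ (𝓞 QQ))).Splits := by
    apply Polynomial.Splits.of_splits_map_of_injective (i := algebraMap (𝓞 QQ) QQ)
      (RingOfIntegers.coe_injective)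
    · exact IsAlgClosed.splits _
    · intro x hx
      rw [Polynomial.map_map] at hx
      have hx2 := Polynomial.isRoot_of_mem_roots hx
      have hint : IsIntegral ℤ x := by
        refine ⟨P, hPm, ?_⟩
        have : eval₂ ((algebraMap (𝓞 QQ) QQ).comp (algebraMap ℤ (𝓞 QQ))) x P = 0 := by
          rw [← eval_map]
          exact hx2
        rwa [← IsScalarTower.algebraMap_eq ℤ (𝓞 QQ) QQ] at this
      exact ⟨⟨x, hint⟩, rfl⟩
  have hPκ : P.map (Int.castRingHom ((𝓞 QQ) ⧸ 𝔔)) = (P.map (algebraMap ℤ (𝓞 QQ))).map mk := by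
    rw [Polynomial.map_map]
    congr 1
  have hPκs : (P.map (Int.castRingHom ((𝓞 QQ) ⧸ 𝔔))).Splits := by
    rw [hPκ]
    exact hPO.map mk
  have hPκ0 : P.map (Int.castRingHom ((𝓞 QQ) ⧸ 𝔔)) ≠ 0 := (hPm.map _).ne_zero
  have hlift : ∀ x : (𝓞 QQ) ⧸ 𝔔, eval x (P.map (Int.castRingHom ((𝓞 QQ) ⧸ 𝔔))) = 0 →
      ∃ w : 𝓞 QQ, mk w = x ∧ aeval (w : QQ) P = 0 := by
    intro x hx
    have h1 : x ∈ (P.map (Int.castRingHom ((𝓞 QQ) ⧸ 𝔔))).roots := by
      rw [Polynomial.mem_roots hPκ0]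
      exact hx
    rw [hPκ, hPO.roots_map_of_ne_zero (by rw [← hPκ]; exact hPκ0), Multiset.mem_map] at h1
    obtain ⟨w, hw, hwx⟩ := h1
    refine ⟨w, hwx, ?_⟩
    have h2 := Polynomial.isRoot_of_mem_roots hw
    rw [Polynomial.IsRoot.def, eval_map] at h2
    have h3 := congrArg (algebraMap (𝓞 QQ) QQ) h2
    rw [hom_eval₂, map_zero, ← IsScalarTower.algebraMap_eq ℤ (𝓞 QQ) QQ] at h3
    exact h3
  -- the roots are conjugate under the powers of the Frobenius element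
  have hconj : ∀ w₁ w₂ : 𝓞 QQ, aeval (w₁ : QQ) P = 0 → aeval (w₂ : QQ) P = 0 →
      ∃ k : ℕ, σ ^ k • w₁ = w₂ := by
    intro w₁ w₂ h₁ h₂
    have hDQQ : (D : QQ) ≠ 0 := by exact_mod_cast hD0.ne'
    have key : ∀ w : 𝓞 QQ, aeval (w : QQ) P = 0 → aeval ((w : QQ) / D) Q = 0 := by
      intro w hw
      have h3 := scaleRoots_eval₂_mul (p := Q) (algebraMap ℚ QQ) ((w : QQ) / D) (D : ℚ)
      rw [← hP, map_natCast, mul_div_cancel₀ _ hDQQ, eval₂_map] at h3
      have h4 : eval₂ ((algebraMap ℚ QQ).comp (Int.castRingHom ℚ)) (w : QQ) P = 0 := by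
        rw [RingHom.ext_int ((algebraMap ℚ QQ).comp (Int.castRingHom ℚ)) (algebraMap ℤ QQ)]
        exact hw
      rw [h4] at h3
      rcases mul_eq_zero.mp h3.symm with h5 | h5
      · exact absurd h5 (pow_ne_zero _ hDQQ)
      · exact h5
    obtain ⟨k, hk⟩ := htr _ _ (key w₁ h₁) (key w₂ h₂)
    refine ⟨k, ?_⟩
    apply RingOfIntegers.coe_injective
    rw [map_div₀, map_natCast, div_left_inj' hDQQ] at hk
    exact hk
  -- irreducibility
  rw [(hQm.map _).irreducible_iff_natDegree]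
  refine ⟨?_, ?_⟩
  · intro h1
    have h2 := congrArg natDegree h1
    rw [hQm.natDegree_map, natDegree_one] at h2
    omega
  intro f g hf hg hfg
  by_contra hcon
  rw [not_or] at hcon
  obtain ⟨hf0, hg0⟩ := hcon
  have hprod : f.scaleRoots (D : ℚ_[ℓ]) * g.scaleRoots (D : ℚ_[ℓ]) =
      (P.map (Int.castRingHom ℤ_[ℓ])).map (algebraMap ℤ_[ℓ] ℚ_[ℓ]) := by
    rw [← mul_scaleRoots_of_noZeroDivisors, hfg]
    have h1 := map_scaleRoots Q (D : ℚ) (algebraMap ℚ ℚ_[ℓ]) (by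
      rw [hQm.leadingCoeff, map_one]; exact one_ne_zero)
    rw [map_natCast] at h1
    rw [← h1, ← hP, Polynomial.map_map, Polynomial.map_map]
    congr 1
  have hPZm : (P.map (Int.castRingHom ℤ_[ℓ])).Monic := hPm.map _
  have hf1 : (f.scaleRoots (D : ℚ_[ℓ])).Monic := (monic_scaleRoots_iff _).mpr hf
  have hg1 : (g.scaleRoots (D : ℚ_[ℓ])).Monic := (monic_scaleRoots_iff _).mpr hg
  obtain ⟨F, hF⟩ := IsIntegrallyClosed.eq_map_mul_C_of_dvd ℚ_[ℓ] hPZm
    (Dvd.intro _ hprod : f.scaleRoots (D : ℚ_[ℓ]) ∣ _)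
  obtain ⟨G, hG⟩ := IsIntegrallyClosed.eq_map_mul_C_of_dvd ℚ_[ℓ] hPZm
    (Dvd.intro_left _ hprod : g.scaleRoots (D : ℚ_[ℓ]) ∣ _)
  rw [hf1.leadingCoeff, C_1, mul_one] at hF
  rw [hg1.leadingCoeff, C_1, mul_one] at hG
  have hinj : Function.Injective (algebraMap ℤ_[ℓ] ℚ_[ℓ]) := IsFractionRing.injective _ _
  have hFm : F.Monic := Polynomial.monic_of_injective hinj (by rw [hF]; exact hf1)
  have hGm : G.Monic := Polynomial.monic_of_injective hinj (by rw [hG]; exact hg1)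
  have hFG : F * G = P.map (Int.castRingHom ℤ_[ℓ]) := by
    apply Polynomial.map_injective _ hinj
    rw [Polynomial.map_mul, hF, hG, hprod]
  have hFdeg : F.natDegree ≠ 0 := by
    rw [← hFm.natDegree_map (algebraMap ℤ_[ℓ] ℚ_[ℓ]), hF, natDegree_scaleRoots]
    exact hf0
  have hGdeg : G.natDegree ≠ 0 := by
    rw [← hGm.natDegree_map (algebraMap ℤ_[ℓ] ℚ_[ℓ]), hG, natDegree_scaleRoots]
    exact hg0
  set ψ : ℤ_[ℓ] →+* (𝓞 QQ) ⧸ 𝔔 := φ.comp PadicInt.toZMod with hψ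
  have hprodκ : F.map ψ * G.map ψ = P.map (Int.castRingHom ((𝓞 QQ) ⧸ 𝔔)) := by
    rw [← Polynomial.map_mul, hFG, Polynomial.map_map]
    congr 1
    exact RingHom.ext_int _ _
  -- the values at Frobenius powers
  have hpow : ∀ (H : ℤ_[ℓ][X]) (k : ℕ) (w : 𝓞 QQ), eval (mk w) (H.map ψ) = 0 →
      eval (mk (σ ^ k • w)) (H.map ψ) = 0 := by
    intro H k w hw
    induction k with
    | zero => rwa [pow_zero, one_smul]
    | succ k ih =>
      rw [pow_succ', mul_smul, hfrob]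
      have h1 : eval₂ φ ((mk (σ ^ k • w)) ^ ℓ) (H.map PadicInt.toZMod)
          = (eval₂ φ (mk (σ ^ k • w)) (H.map PadicInt.toZMod)) ^ ℓ := by
        have h2 := hom_eval₂ (H.map PadicInt.toZMod) φ (frobenius ((𝓞 QQ) ⧸ 𝔔) ℓ)
          (mk (σ ^ k • w))
        rw [frobenius_def, frobenius_def] at h2
        rw [h2]
        congr 1
        exact RingHom.ext_zmod _ _
      have h3 : ∀ z : (𝓞 QQ) ⧸ 𝔔, eval z (H.map ψ) = eval₂ φ z (H.map PadicInt.toZMod) := by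
        intro z
        rw [eval_map, eval₂_map]
      rw [h3, h1, ← h3, ih, zero_pow hfact.out.ne_zero]
  have hdvdF : F.map ψ ∣ P.map (Int.castRingHom ((𝓞 QQ) ⧸ 𝔔)) := Dvd.intro _ hprodκ
  have hdvdG : G.map ψ ∣ P.map (Int.castRingHom ((𝓞 QQ) ⧸ 𝔔)) := Dvd.intro_left _ hprodκ
  obtain ⟨x, hx⟩ := (Splits.of_dvd hPκs hPκ0 hdvdF).exists_eval_eq_zero (by
    intro h
    have h2 := natDegree_eq_of_degree_eq_some h
    rw [hFm.natDegree_map] at h2
    exact hFdeg h2)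
  obtain ⟨y, hy⟩ := (Splits.of_dvd hPκs hPκ0 hdvdG).exists_eval_eq_zero (by
    intro h
    have h2 := natDegree_eq_of_degree_eq_some h
    rw [hGm.natDegree_map] at h2
    exact hGdeg h2)
  obtain ⟨w₁, hw₁, hw₁'⟩ := hlift x (by rw [← hprodκ, eval_mul, hx, zero_mul])
  obtain ⟨w₂, hw₂, hw₂'⟩ := hlift y (by rw [← hprodκ, eval_mul, hy, mul_zero])
  obtain ⟨k, hk⟩ := hconj w₁ w₂ hw₁' hw₂'
  have hx2 : eval y (F.map ψ) = 0 := by
    rw [← hw₂, ← hk]
    apply hpow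
    rw [hw₁]
    exact hx
  -- contradiction with separability
  have h1 : eval y (derivative (P.map (Int.castRingHom ((𝓞 QQ) ⧸ 𝔔)))) = 0 := by
    rw [← hprodκ, derivative_mul, eval_add, eval_mul, eval_mul, hx2, hy, mul_zero, zero_mul,
      add_zero]
  have h2 : eval y (P.map (Int.castRingHom ((𝓞 QQ) ⧸ 𝔔))) = 0 := by
    rw [← hprodκ, eval_mul, hy, mul_zero]
  have h3 := congrArg (fun q : ℤ[X] => eval y (q.map (Int.castRingHom ((𝓞 QQ) ⧸ 𝔔)))) hab
  simp only [Polynomial.map_add, Polynomial.map_mul, ← Polynomial.derivative_map, eval_add,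
    eval_mul, h1, h2, mul_zero, add_zero, Polynomial.map_C, eval_C] at h3
  rw [eq_intCast] at h3
  have h4 := (CharP.intCast_eq_zero_iff ((𝓞 QQ) ⧸ 𝔔) ℓ N).mp h3.symm
  have h5 := Int.natAbs_dvd_natAbs.mpr h4
  rw [Int.natAbs_natCast] at h5
  have h6 := Nat.le_of_dvd (Int.natAbs_pos.mpr hN0) h5
  omega

end Pool.Agent.Y971.ZI
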