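import Pool.Agent.Y121.ZI.Stm

/-!
# The bound by the rank (job ZI-CS of helper121)

Adaptation of Pool/Agent/Y133/Half/Schur.lean.
-/

open scoped TensorProduct

universe u v w

namespace Pool.Agent.Y971.ZI

open Module Pool.Agent.Y133.Half Pool.Agent.Y121.ZI Pool.Agent.Y121.ZI.NCTheory

lemma le_of_pow_bound {r m D : ℕ} (h : ∀ j : ℕ, r ^ (2 ^ j) ≤ m ^ (2 ^ j) * D) : r ≤ m := by
  by_contra hlt
  push Not at hlt
  rcases Nat.eq_zero_or_pos m with hm | hm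
  · subst hm
    have := h 0
    simp at this
    omega
  · have hm' : (0 : ℝ) < m := by exact_mod_cast hm
    have h1 : ∀ j : ℕ, 1 + (2 ^ j : ℕ) * (1 / (m : ℝ)) ≤ D := by
      intro j
      have h2 : 1 + ((2 ^ j : ℕ) : ℝ) * (1 / (m : ℝ)) ≤ (1 + 1 / (m : ℝ)) ^ (2 ^ j) := by
        apply one_add_mul_le_pow
        have : (0 : ℝ) < 1 / m := by positivity
        linarith
      have h3 : (1 + 1 / (m : ℝ)) ^ (2 ^ j) ≤ D := by
        have h4 : ((m : ℝ) + 1) ^ (2 ^ j) ≤ (m : ℝ) ^ (2 ^ j) * D := by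
          have h5 : ((m + 1 : ℕ) : ℝ) ^ (2 ^ j) ≤ (r : ℝ) ^ (2 ^ j) := by
            apply pow_le_pow_left₀ (by positivity)
            exact_mod_cast hlt
          have h6 : ((r ^ (2 ^ j) : ℕ) : ℝ) ≤ ((m ^ (2 ^ j) * D : ℕ) : ℝ) := by
            exact_mod_cast h j
          push_cast at h5 h6
          exact h5.trans h6
        have h7 : (1 + 1 / (m : ℝ)) = ((m : ℝ) + 1) / m := by field_simp
        rw [h7, div_pow, div_le_iff₀ (by positivity)]
        linarith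
      exact h2.trans h3
    obtain ⟨j, hj⟩ := pow_unbounded_of_one_lt ((D : ℝ) * m) (one_lt_two)
    have h8 := h1 j
    have h9 : (D : ℝ) < ((2 ^ j : ℕ) : ℝ) * (1 / (m : ℝ)) := by
      rw [mul_one_div, lt_div_iff₀ hm']
      push_cast
      exact hj
    linarith

variable {K : Type u} [Field K] [CharZero K]

section

variable {T : NCTheory.{u, v, w} K} {P Q Y : T.Obj}

omit [CharZero K] in
lemma ex_idem {g : T.H P →ₗ[K] T.H P} {h : T.H Q →ₗ[K] T.H Q} (hg : g ∘ₗ g = g)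
    (hh : h ∘ₗ h = h) : ex g h ∘ₗ ex g h = ex g h := by
  rw [ex_comp, hg, hh]

lemma finrank_ex {g : T.H P →ₗ[K] T.H P} {h : T.H Q →ₗ[K] T.H Q} (hg : g ∘ₗ g = g)
    (hh : h ∘ₗ h = h) : finrank K (LinearMap.range (ex g h)) =
      finrank K (LinearMap.range g) * finrank K (LinearMap.range h) := by
  have h1 := trace_idem (K := K) (ex_idem hg hh)
  rw [trace_ex, trace_idem hg, trace_idem hh] at h1
  exact_mod_cast h1.symm

lemma b_sq_le (h1 : SDual1 T) {g : T.H P →ₗ[K] T.H P} (hg : g ∈ T.S P P) (hgg : g ∘ₗ g = g) :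
    ∃ g' ∈ T.S (T.op P) (T.op P), g' ∘ₗ g' = g' ∧
      finrank K (LinearMap.range g') = finrank K (LinearMap.range g) ∧ ∀ Y : T.Obj,
        b P g Y ^ 2 ≤ b (T.ten (T.op P) P) (ex g' g) Y * a Y LinearMap.id Y LinearMap.id := by
  obtain ⟨g', hg', hD, hid, hrk⟩ := h1 P g hg
  refine ⟨g', hg', hid hgg, hrk, fun Y => ?_⟩
  have e1 : ex g (LinearMap.id : T.H Y →ₗ[K] T.H Y) ∈ T.S (T.ten P Y) (T.ten P Y) :=
    S_ex hg S_id
  have e2 : ex g (LinearMap.id : T.H Y →ₗ[K] T.H Y) ∘ₗ ex g LinearMap.id =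
      ex g LinearMap.id := ex_idem hgg (LinearMap.id_comp _)
  have c1 := a_sq_le e1 e2 (S_id : (LinearMap.id : T.H Y →ₗ[K] T.H Y) ∈ T.S Y Y)
    (LinearMap.id_comp _)
  have c2 : a (T.ten P Y) (ex g (LinearMap.id : T.H Y →ₗ[K] T.H Y)) (T.ten P Y)
      (ex g (LinearMap.id : T.H Y →ₗ[K] T.H Y)) ≤ b (T.ten (T.op P) P) (ex g' g) Y := by
    rw [(PIso.swap P Y hg S_id).a_eq]
    refine (dual_move hD LinearMap.id _).trans ?_
    rw [a_comm (S_ex e1 hg'), (PIso.swap (T.ten P Y) (T.op P) e1 hg').a_eq,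
      ((PIso.assoc (T.op P) P Y g' g LinearMap.id).symm).a_eq]
    exact le_rfl
  exact c1.trans (Nat.mul_le_mul_right _ c2)

lemma b_le {g : T.H P →ₗ[K] T.H P} (hgg : g ∘ₗ g = g) (Y : T.Obj) :
    b P g Y ≤ finrank K (LinearMap.range g) * (finrank K (T.H Y) * finrank K (T.H Y)) := by
  have h1 := a_le (T := T) (ex g (LinearMap.id : T.H Y →ₗ[K] T.H Y))
    (LinearMap.id : T.H Y →ₗ[K] T.H Y)
  rw [finrank_ex hgg (LinearMap.id_comp _), LinearMap.range_id, finrank_top, mul_assoc] at h1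
  exact h1

lemma pow_bound (h1 : SDual1 T) (Y : T.Obj) (j : ℕ) : ∀ (P : T.Obj) (g : T.H P →ₗ[K] T.H P),
    g ∈ T.S P P → g ∘ₗ g = g → b P g Y ^ (2 ^ j) * a Y LinearMap.id Y LinearMap.id ≤
      finrank K (LinearMap.range g) ^ (2 ^ j) * (finrank K (T.H Y) * finrank K (T.H Y)) *
        a Y LinearMap.id Y LinearMap.id ^ (2 ^ j) := by
  induction j with
  | zero =>
    intro P g _ hgg
    simp only [pow_zero, pow_one]
    exact Nat.mul_le_mul_right _ (b_le hgg Y)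
  | succ j ih =>
    intro P g hg hgg
    obtain ⟨g', hg', hgg', hrk, hb⟩ := b_sq_le h1 hg hgg
    have h1 := hb Y
    have h2 := ih (T.ten (T.op P) P) (ex g' g) (S_ex hg' hg) (ex_idem hgg' hgg)
    rw [finrank_ex hgg' hgg, hrk] at h2
    set α := a Y (LinearMap.id : T.H Y →ₗ[K] T.H Y) Y LinearMap.id
    set D := finrank K (T.H Y) * finrank K (T.H Y)
    set ρ := b P g Y
    set ρ' := b (T.ten (T.op P) P) (ex g' g) Y
    set m := finrank K (LinearMap.range g)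
    calc ρ ^ (2 ^ (j + 1)) * α = (ρ ^ 2) ^ (2 ^ j) * α := by rw [← pow_mul, pow_succ, mul_comm 2]
      _ ≤ (ρ' * α) ^ (2 ^ j) * α := Nat.mul_le_mul_right _ (Nat.pow_le_pow_left h1 _)
      _ = (ρ' ^ (2 ^ j) * α) * α ^ (2 ^ j) := by rw [mul_pow]; ring
      _ ≤ ((m * m) ^ (2 ^ j) * D * α ^ (2 ^ j)) * α ^ (2 ^ j) := Nat.mul_le_mul_right _ h2
      _ = m ^ (2 ^ (j + 1)) * D * α ^ (2 ^ (j + 1)) := by
        rw [pow_succ 2 j, pow_mul, pow_mul]
        ring

end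

variable (T : NCTheory.{u, v, w} K)

/-- **The bound by the rank.** -/
theorem cs (h1 : SDual1 T) : SCS T := by
  intro P g hg hgg Y
  rcases Nat.eq_zero_or_pos (a Y (LinearMap.id : T.H Y →ₗ[K] T.H Y) Y LinearMap.id) with h0 | h0
  · obtain ⟨g', hg', hgg', hrk, hb⟩ := b_sq_le h1 hg hgg
    have h2 := hb Y
    rw [h0, mul_zero] at h2
    rw [h0, mul_zero]
    have : b P g Y ^ 2 = 0 := Nat.le_zero.1 h2
    exact (pow_eq_zero_iff two_ne_zero).1 this |>.le
  · apply le_of_pow_bound (D := finrank K (T.H Y) * finrank K (T.H Y))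
    intro j
    have h := pow_bound h1 Y j P g hg hgg
    calc b P g Y ^ (2 ^ j) ≤ b P g Y ^ (2 ^ j) * a Y LinearMap.id Y LinearMap.id :=
          Nat.le_mul_of_pos_right _ h0
      _ ≤ _ := h
      _ = (finrank K (LinearMap.range g) * a Y LinearMap.id Y LinearMap.id) ^ (2 ^ j) *
          (finrank K (T.H Y) * finrank K (T.H Y)) := by rw [mul_pow]; ring

end Pool.Agent.Y971.ZI
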